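import Pool.Agent.N138.SU.Stm

set_option autoImplicit false

/-! # Characters of the units of `ℤ_p`, additive characters, Haar measure: common lemmas -/

namespace Pool.Agent.N316.SU

open MeasureTheory
open Pool.Agent.W427.SMC
open Pool.Agent.N138.SU

attribute [local instance] msZ bsZ

variable {p : ℕ} [Fact p.Prime]

theorem ppos : (0 : ℝ) < (p : ℝ)⁻¹ :=
  inv_pos.2 (by exact_mod_cast (Fact.out : p.Prime).pos)

theorem plt : (p : ℝ)⁻¹ < 1 :=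
  inv_lt_one_of_one_lt₀ (by exact_mod_cast (Fact.out : p.Prime).one_lt)

theorem norm_p : ‖(p : ℤ_[p])‖ = (p : ℝ)⁻¹ := PadicInt.norm_p

/-! ## the additive characters -/

theorem psi_add (e : ℕ) (x y : ℤ_[p]) : psi p e (x + y) = psi p e x * psi p e y := by
  unfold psi
  rw [map_add, AddChar.map_add_eq_mul]

theorem psi_zero (e : ℕ) : psi p e 0 = 1 := by
  unfold psi
  rw [map_zero, AddChar.map_zero_eq_one]

theorem psi_norm (e : ℕ) (x : ℤ_[p]) : ‖psi p e x‖ = 1 := by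
  have : NeZero (p ^ e) := ⟨pow_ne_zero e (Fact.out : p.Prime).ne_zero⟩
  unfold psi
  exact AddChar.norm_apply _ _

theorem psi_int (e : ℕ) (j : ℤ) : psi p e (j : ℤ_[p]) =
    Complex.exp (2 * Real.pi * Complex.I * j / (p ^ e : ℕ)) := by
  have : NeZero (p ^ e) := ⟨pow_ne_zero e (Fact.out : p.Prime).ne_zero⟩
  unfold psi
  rw [map_intCast, ZMod.stdAddChar_coe]

theorem norm_le_iff (x : ℤ_[p]) (e : ℕ) : ‖x‖ ≤ ((p : ℝ)⁻¹) ^ e ↔ (p : ℤ_[p]) ^ e ∣ x := by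
  rw [← Ideal.mem_span_singleton, ← PadicInt.norm_le_pow_iff_mem_span_pow, inv_pow, zpow_neg,
    zpow_natCast]

theorem psi_eq_one (e : ℕ) (x : ℤ_[p]) (h : ‖x‖ ≤ ((p : ℝ)⁻¹) ^ e) : psi p e x = 1 := by
  have h1 : PadicInt.toZModPow e x = 0 := by
    rw [← RingHom.mem_ker, PadicInt.ker_toZModPow, Ideal.mem_span_singleton]
    exact (norm_le_iff x e).1 h
  unfold psi
  rw [h1, AddChar.map_zero_eq_one]

theorem psi_eq_one_iff (e : ℕ) (x : ℤ_[p]) : psi p e x = 1 ↔ ‖x‖ ≤ ((p : ℝ)⁻¹) ^ e := by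
  refine ⟨fun h => ?_, psi_eq_one e x⟩
  have : NeZero (p ^ e) := ⟨pow_ne_zero e (Fact.out : p.Prime).ne_zero⟩
  unfold psi at h
  have h1 : PadicInt.toZModPow e x = 0 := by
    apply ZMod.injective_stdAddChar (N := p ^ e)
    rw [h, AddChar.map_zero_eq_one]
  rw [← RingHom.mem_ker, PadicInt.ker_toZModPow, Ideal.mem_span_singleton] at h1
  exact (norm_le_iff x e).2 h1

theorem psi_congr (e : ℕ) (x y : ℤ_[p]) (h : ‖x - y‖ ≤ ((p : ℝ)⁻¹) ^ e) : psi p e x = psi p e y := by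
  have : psi p e x = psi p e (x - y) * psi p e y := by rw [← psi_add, sub_add_cancel]
  rw [this, psi_eq_one e _ h, one_mul]

/-- `ℕ` is dense -/
theorem exists_nat (x : ℤ_[p]) (e : ℕ) : ∃ n : ℕ, ‖x - n‖ ≤ ((p : ℝ)⁻¹) ^ e := by
  refine ⟨x.appr e, ?_⟩
  rw [norm_le_iff]
  have := PadicInt.appr_spec e x
  rwa [Ideal.mem_span_singleton] at this

theorem psi_scale (e k : ℕ) (x : ℤ_[p]) : psi p (e + k) ((p : ℤ_[p]) ^ k * x) = psi p e x := by
  obtain ⟨n, hn⟩ := exists_nat x (e + k)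
  have hk : ‖(p : ℤ_[p]) ^ k‖ ≤ 1 := PadicInt.norm_le_one _
  rw [psi_congr (e + k) _ ((p : ℤ_[p]) ^ k * (n : ℤ_[p])) (by
      rw [← mul_sub, norm_mul]
      calc _ ≤ 1 * ‖x - n‖ := by gcongr
        _ ≤ _ := by rw [one_mul]; exact hn),
    psi_congr e x (n : ℤ_[p]) (hn.trans (by
      exact pow_le_pow_of_le_one ppos.le plt.le (Nat.le_add_right e k)))]
  have h1 : ((p : ℤ_[p]) ^ k * (n : ℤ_[p])) = (((p : ℤ) ^ k * (n : ℤ) : ℤ) : ℤ_[p]) := by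
    push_cast; rfl
  have h2 : (n : ℤ_[p]) = ((n : ℤ) : ℤ_[p]) := by push_cast; rfl
  rw [h1, h2, psi_int, psi_int]
  congr 1
  have hp : (p : ℂ) ≠ 0 := by exact_mod_cast (Fact.out : p.Prime).ne_zero
  push_cast
  rw [pow_add]
  field_simp

theorem psi_cont (e : ℕ) : Continuous (psi p e) := by
  rw [Metric.continuous_iff]
  intro b ε hε
  refine ⟨((p : ℝ)⁻¹) ^ e, pow_pos ppos e, fun a ha => ?_⟩
  rw [dist_eq_norm] at ha
  rw [psi_congr e a b ha.le, dist_self]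
  exact hε

theorem psi_nsmul (e n : ℕ) (x : ℤ_[p]) : psi p e (n * x) = psi p e x ^ n := by
  induction n with
  | zero => simp [psi_zero]
  | succ n ih =>
    rw [Nat.cast_succ, add_mul, one_mul, psi_add, ih, pow_succ]

/-! ## the multiplicative characters -/

theorem norm_eq_one_of_near (x : ℤ_[p]) (c : ℕ) (hc : 1 ≤ c) (h : ‖x - 1‖ ≤ ((p : ℝ)⁻¹) ^ c) :
    ‖x‖ = 1 := by
  have h1 : ‖x - 1‖ < 1 := h.trans_lt (pow_lt_one₀ ppos.le plt (by omega))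
  have h2 : x = 1 + (x - 1) := by ring
  have h3 : ‖(1 : ℤ_[p])‖ = 1 := norm_one
  rw [h2, PadicInt.norm_add_eq_max_of_ne (by rw [h3]; exact h1.ne'), h3]
  exact max_eq_left h1.le

theorem X_near (χ : UC p) (x : ℤ_[p]) (h : ‖x - 1‖ ≤ ((p : ℝ)⁻¹) ^ χ.c) :
    χ.X (x : ℚ_[p]) = 1 := by
  refine χ.tr _ ?_
  have h1 : ((x : ℚ_[p]) - 1) = ((x - 1 : ℤ_[p]) : ℚ_[p]) := by push_cast; rfl
  rw [h1, ← PadicInt.norm_def]
  exact h

theorem X_mul (χ : UC p) (x y : ℤ_[p]) :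
    χ.X ((x * y : ℤ_[p]) : ℚ_[p]) = χ.X (x : ℚ_[p]) * χ.X (y : ℚ_[p]) := by
  rw [PadicInt.coe_mul, map_mul]

/-- some power of a unit is close to `1` -/
theorem exists_pow_near (u : ℤ_[p]) (hu : ‖u‖ = 1) (c : ℕ) :
    ∃ n : ℕ, 1 ≤ n ∧ ‖u ^ n - 1‖ ≤ ((p : ℝ)⁻¹) ^ c := by
  have : NeZero (p ^ c) := ⟨pow_ne_zero c (Fact.out : p.Prime).ne_zero⟩
  obtain ⟨v, rfl⟩ := PadicInt.isUnit_iff.2 hu
  refine ⟨Fintype.card (ZMod (p ^ c))ˣ, Fintype.card_pos, ?_⟩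
  rw [norm_le_iff, ← Ideal.mem_span_singleton, ← PadicInt.ker_toZModPow, RingHom.mem_ker, map_sub,
    map_one, map_pow, sub_eq_zero]
  have h1 := pow_card_eq_one (x := Units.map
    ((PadicInt.toZModPow c : ℤ_[p] →+* ZMod (p ^ c)) : ℤ_[p] →* ZMod (p ^ c)) v)
  have h2 := congrArg Units.val h1
  rw [Units.val_pow_eq_pow_val, Units.coe_map, Units.val_one] at h2
  exact h2

theorem X_norm (χ : UC p) (u : ℤ_[p]) (hu : ‖u‖ = 1) : ‖χ.X (u : ℚ_[p])‖ = 1 := by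
  obtain ⟨n, hn, h⟩ := exists_pow_near u hu χ.c
  have h1 := X_near χ _ h
  rw [PadicInt.coe_pow, map_pow] at h1
  exact Complex.norm_eq_one_of_pow_eq_one h1 (by omega)

theorem X_conj (χ : UC p) (u : ℤ_[p]) (hu : ‖u‖ = 1) :
    (starRingEnd ℂ) (χ.X (u : ℚ_[p])) * χ.X (u : ℚ_[p]) = 1 := by
  rw [← Complex.normSq_eq_conj_mul_self, Complex.normSq_eq_norm_sq, X_norm χ u hu]
  norm_num

theorem X_congr (χ : UC p) (u v : ℤ_[p]) (hu : ‖u‖ = 1) (h : ‖v - u‖ ≤ ((p : ℝ)⁻¹) ^ χ.c) :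
    χ.X (v : ℚ_[p]) = χ.X (u : ℚ_[p]) := by
  obtain ⟨w, rfl⟩ := PadicInt.isUnit_iff.2 hu
  have h1 : v = (w : ℤ_[p]) * (v * ((w⁻¹ : ℤ_[p]ˣ) : ℤ_[p])) := by
    rw [mul_comm v, ← mul_assoc, Units.mul_inv, one_mul]
  rw [h1, X_mul, X_near χ (v * ((w⁻¹ : ℤ_[p]ˣ) : ℤ_[p])), mul_one]
  have h2 : v * ((w⁻¹ : ℤ_[p]ˣ) : ℤ_[p]) - 1 = (v - w) * ((w⁻¹ : ℤ_[p]ˣ) : ℤ_[p]) := by
    rw [sub_mul, Units.mul_inv]
  rw [h2, norm_mul]
  have h3 : ‖((w⁻¹ : ℤ_[p]ˣ) : ℤ_[p])‖ = 1 := PadicInt.isUnit_iff.1 (Units.isUnit _)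
  rw [h3, mul_one]
  exact h

/-- the character cut off to the units -/
noncomputable def cx (χ : UC p) (u : ℤ_[p]) : ℂ :=
  if ‖u‖ = 1 then (starRingEnd ℂ) (χ.X (u : ℚ_[p])) else 0

theorem cx_unit (χ : UC p) (u : ℤ_[p]) (h : ‖u‖ = 1) :
    cx χ u = (starRingEnd ℂ) (χ.X (u : ℚ_[p])) := if_pos h

theorem cx_not (χ : UC p) (u : ℤ_[p]) (h : ‖u‖ ≠ 1) : cx χ u = 0 := if_neg h

theorem cx_norm (χ : UC p) (u : ℤ_[p]) : ‖cx χ u‖ ≤ 1 := by
  by_cases h : ‖u‖ = 1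
  · rw [cx_unit χ u h, RCLike.norm_conj, X_norm χ u h]
  · rw [cx_not χ u h, norm_zero]
    exact zero_le_one

theorem norm_unit_of_near (u v : ℤ_[p]) (c : ℕ) (hc : 1 ≤ c) (h : ‖v - u‖ ≤ ((p : ℝ)⁻¹) ^ c)
    (hu : ‖u‖ = 1) : ‖v‖ = 1 := by
  have h1 : ‖v - u‖ < 1 := h.trans_lt (pow_lt_one₀ ppos.le plt (by omega))
  have h2 : v = u + (v - u) := by ring
  rw [h2, PadicInt.norm_add_eq_max_of_ne (by rw [hu]; exact h1.ne'), hu]
  exact max_eq_left h1.le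

theorem cx_congr (χ : UC p) (u v : ℤ_[p]) (h : ‖v - u‖ ≤ ((p : ℝ)⁻¹) ^ χ.c) :
    cx χ v = cx χ u := by
  by_cases hu : ‖u‖ = 1
  · rw [cx_unit χ u hu, cx_unit χ v (norm_unit_of_near u v χ.c χ.hc h hu), X_congr χ u v hu h]
  · have hv : ‖v‖ ≠ 1 := fun hv => hu (norm_unit_of_near v u χ.c χ.hc (by
      rw [← norm_neg, neg_sub]; exact h) hv)
    rw [cx_not χ u hu, cx_not χ v hv]

theorem cx_cont (χ : UC p) : Continuous (cx χ) := by
  rw [Metric.continuous_iff]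
  intro b ε hε
  refine ⟨((p : ℝ)⁻¹) ^ χ.c, pow_pos ppos _, fun a ha => ?_⟩
  rw [dist_eq_norm] at ha
  rw [cx_congr χ b a ha.le, dist_self]
  exact hε

theorem cx_mul (χ : UC p) (u v : ℤ_[p]) (hv : ‖v‖ = 1) :
    cx χ (v * u) = (starRingEnd ℂ) (χ.X (v : ℚ_[p])) * cx χ u := by
  by_cases hu : ‖u‖ = 1
  · rw [cx_unit χ u hu, cx_unit χ (v * u) (by rw [norm_mul, hu, hv, mul_one]), X_mul,
      map_mul]
  · rw [cx_not χ u hu, cx_not χ (v * u) (by rwa [norm_mul, hv, one_mul]), mul_zero]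

theorem un_meas : MeasurableSet (un p) :=
  (isClosed_singleton.preimage continuous_norm).measurableSet

/-- integrals over the units -/
theorem int_un (χ : UC p) (h : ℤ_[p] → ℂ) :
    ∫ u in un p, (starRingEnd ℂ) (χ.X (u : ℚ_[p])) * h u ∂(mu p) = ∫ u, cx χ u * h u ∂(mu p) := by
  rw [← integral_indicator un_meas]
  refine integral_congr_ae (Filter.Eventually.of_forall fun u => ?_)
  by_cases hu : ‖u‖ = 1
  · have : u ∈ un p := hu
    simp only [Set.indicator_of_mem this, cx_unit χ u hu]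
  · have : u ∉ un p := hu
    simp only [Set.indicator_of_notMem this, cx_not χ u hu, zero_mul]

/-! ## the Haar measure -/

/-- multiplication by a unit preserves the measure -/
theorem mp_unit (u : ℤ_[p]) (hu : ‖u‖ = 1) :
    MeasurePreserving (fun z => u * z) (mu p) (mu p) := by
  have hm : Measurable (fun z : ℤ_[p] => u * z) := (continuous_const.mul continuous_id).measurable
  refine ⟨hm, ?_⟩
  have hpr : IsProbabilityMeasure ((mu p).map (fun z => u * z)) :=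
    Measure.isProbabilityMeasure_map hm.aemeasurable
  obtain ⟨v, rfl⟩ := PadicInt.isUnit_iff.2 hu
  have hinv : ((mu p).map (fun z => (v : ℤ_[p]) * z)).IsAddLeftInvariant := by
    refine ⟨fun t => ?_⟩
    refine Measure.ext_of_lintegral _ fun g hg => ?_
    have h1 := lintegral_map (μ := mu p) (hg.comp (measurable_const_add t)) hm
    simp only [Function.comp_apply] at h1
    rw [lintegral_map hg (measurable_const_add t), lintegral_map hg hm, h1,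
      ← lintegral_add_left_eq_self (μ := mu p) (fun z => g ((v : ℤ_[p]) * z))
        (((v⁻¹ : ℤ_[p]ˣ) : ℤ_[p]) * t)]
    refine lintegral_congr fun z => ?_
    congr 1
    rw [mul_add, ← mul_assoc, Units.mul_inv, one_mul]
  exact mu_unique p _

theorem int_mul (u : ℤ_[p]) (hu : ‖u‖ = 1) (f : ℤ_[p] → ℂ) (hf : Continuous f) :
    ∫ z, f (u * z) ∂(mu p) = ∫ z, f z ∂(mu p) := by
  have h := (mp_unit u hu)
  rw [← h.map_eq, integral_map h.measurable.aemeasurable hf.aestronglyMeasurable, h.map_eq]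

end Pool.Agent.N316.SU
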